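import Mathlib
import Pool.Agent.Helper95.FL.Stmts2

set_option autoImplicit false

/-!
# Packing copies of a complex (piece P-3 of project FL)
-/

namespace Pool.Agent.Helper4.FL

open Pool.Agent.Helper95.FL
open scoped Classical

variable {X V : Type}

theorem edge_ty1 (𝒞 : Cx X V) (s : Fin 3) (x : X) : 𝒞.ty (𝒞.edge s x).1 = s + 1 :=
  𝒞.ty_vert _ _

theorem edge_ty2 (𝒞 : Cx X V) (s : Fin 3) (x : X) : 𝒞.ty (𝒞.edge s x).2 = s + 2 :=
  𝒞.ty_vert _ _

theorem fin3_cancel : ∀ s t : Fin 3, s + 1 = t + 1 → s = t := by decide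

theorem fin3_ne : ∀ s : Fin 3, s + 1 ≠ s + 2 := by decide

theorem edge_s (𝒞 : Cx X V) {s s' : Fin 3} {x x' : X} (h : 𝒞.edge s x = 𝒞.edge s' x') :
    s = s' := by
  have h1 : 𝒞.ty (𝒞.edge s x).1 = 𝒞.ty (𝒞.edge s' x').1 := by rw [h]
  rw [edge_ty1, edge_ty1] at h1
  exact fin3_cancel _ _ h1

theorem isEdge_ne (𝒞 : Cx X V) {e : V × V} (h : 𝒞.IsEdge e) : e.1 ≠ e.2 := by
  obtain ⟨s, x, rfl⟩ := h
  intro h1
  have h2 : 𝒞.ty (𝒞.edge s x).1 = 𝒞.ty (𝒞.edge s x).2 := by rw [h1]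
  rw [edge_ty1, edge_ty2] at h2
  exact fin3_ne _ h2

theorem card_Ed [Fintype X] [Fintype V] (h1 : StEdgeCount) (𝒞 : Cx X V) (d : ℕ)
    (hs : ∀ s x, (Finset.univ.filter fun y => 𝒞.edge s y = 𝒞.edge s x).card = d) :
    Fintype.card {e : V × V // 𝒞.IsEdge e} * d ≤ 3 * Fintype.card X := by
  have h2 : Fintype.card {e : V × V // 𝒞.IsEdge e} ≤
      ∑ s, (Finset.univ.image (𝒞.edge s)).card := by
    rw [Fintype.card_subtype]
    refine (Finset.card_le_card ?_).trans
      (Finset.card_biUnion_le (s := Finset.univ) (t := fun s => Finset.univ.image (𝒞.edge s)))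
    intro e he
    obtain ⟨s, x, rfl⟩ := (Finset.mem_filter.1 he).2
    exact Finset.mem_biUnion.2 ⟨s, Finset.mem_univ _, Finset.mem_image.2 ⟨x, Finset.mem_univ _, rfl⟩⟩
  have h3 := h1 X V 𝒞 d hs
  calc Fintype.card {e : V × V // 𝒞.IsEdge e} * d
      ≤ (∑ s, (Finset.univ.image (𝒞.edge s)).card) * d := Nat.mul_le_mul_right _ h2
    _ = ∑ s, (Finset.univ.image (𝒞.edge s)).card * d := Finset.sum_mul _ _ _
    _ = ∑ _s : Fin 3, Fintype.card X := Finset.sum_congr rfl fun s _ => h3 s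
    _ = 3 * Fintype.card X := by simp

/-- Triples of a type and two residues. -/
structure ZT (P : ℕ) where
  t : Fin 3
  u : ZMod P
  v : ZMod P

/-- The image of an edge under an affine map. -/
def aimg (P : ℕ) (𝒞 : Cx X V) (lam : V → ZMod P) (ω : (ZMod P)ˣ × ZMod P)
    (e : {e : V × V // 𝒞.IsEdge e}) : ZT P :=
  ⟨𝒞.ty e.1.1, (ω.1 : ZMod P) * lam e.1.1 + ω.2, (ω.1 : ZMod P) * lam e.1.2 + ω.2⟩

theorem aimg_inj (P : ℕ) [Fact P.Prime] (𝒞 : Cx X V) (lam : V → ZMod P)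
    (hl : Function.Injective lam) (e : {e : V × V // 𝒞.IsEdge e}) :
    Function.Injective fun ω => aimg P 𝒞 lam ω e := by
  intro ω ω' h
  have h1 : (ω.1 : ZMod P) * lam e.1.1 + ω.2 = (ω'.1 : ZMod P) * lam e.1.1 + ω'.2 := by
    have := congrArg ZT.u h
    exact this
  have h2 : (ω.1 : ZMod P) * lam e.1.2 + ω.2 = (ω'.1 : ZMod P) * lam e.1.2 + ω'.2 := by
    have := congrArg ZT.v h
    exact this
  have hne : lam e.1.1 - lam e.1.2 ≠ 0 := fun h0 =>
    isEdge_ne 𝒞 e.2 (hl (sub_eq_zero.1 h0))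
  have h3 : ((ω.1 : ZMod P) - ω'.1) * (lam e.1.1 - lam e.1.2) = 0 := by
    linear_combination h1 - h2
  have h4 : (ω.1 : ZMod P) - ω'.1 = 0 := by
    rcases mul_eq_zero.1 h3 with h | h
    · exact h
    · exact absurd h hne
  have h5 : ω.1 = ω'.1 := Units.ext (sub_eq_zero.1 h4)
  have h6 : ω.2 = ω'.2 := by
    rw [h5] at h1
    exact add_left_cancel h1
  exact Prod.ext h5 h6

theorem stPack (h1 : StEdgeCount) (h2 : StSeq) : StPack := by
  intro X V _ _ 𝒞 d hd hs P n N hP hV hn hN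
  have : Fact P.Prime := ⟨hP⟩
  have : NeZero P := ⟨hP.ne_zero⟩
  -- the injective labelling
  obtain ⟨lam⟩ : Nonempty (V ↪ ZMod P) := by
    apply Function.Embedding.nonempty_of_card_le
    rw [ZMod.card]
    exact hV
  obtain ⟨iota⟩ : Nonempty (Fin 3 × ZMod P ↪ Fin n) := by
    apply Function.Embedding.nonempty_of_card_le
    rw [Fintype.card_prod, ZMod.card, Fintype.card_fin, Fintype.card_fin]
    exact hn
  have hcardΩ : Fintype.card ((ZMod P)ˣ × ZMod P) = P * (P - 1) := by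
    rw [Fintype.card_prod, ZMod.card, ZMod.card_units, mul_comm]
  obtain ⟨F, hF⟩ := h2 ((ZMod P)ˣ × ZMod P) {e : V × V // 𝒞.IsEdge e}
    (ZT P) (aimg P 𝒞 lam) (by
      intro e z
      rw [Finset.card_le_one]
      intro a ha b hb
      apply aimg_inj P 𝒞 lam lam.injective e
      exact (Finset.mem_filter.1 ha).2.trans (Finset.mem_filter.1 hb).2.symm) N
  rw [hcardΩ] at hF
  set coll := (Finset.univ.filter fun p : (Fin N × {e : V × V // 𝒞.IsEdge e}) ×
      (Fin N × {e : V × V // 𝒞.IsEdge e}) =>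
        p.1.1 ≠ p.2.1 ∧ aimg P 𝒞 lam (F p.1.1) p.1.2 = aimg P 𝒞 lam (F p.2.1) p.2.2) with hcoll
  let E : Emb (𝒞.copies N) n :=
    { ν := fun v => iota (𝒞.ty v.2, ((F v.1).1 : ZMod P) * lam v.2 + (F v.1).2)
      sep := by
        intro v w h
        exact congrArg Prod.fst (iota.injective h) }
  have hbad : ∀ x : Fin N × X, ¬ (∀ s, E.Good ((𝒞.copies N).edge s x)) →
      ∃ p ∈ coll, p.1.1 = x.1 ∧ ∃ s, 𝒞.edge s x.2 = p.1.2.1 := by
    intro x hx
    rw [not_forall] at hx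
    obtain ⟨s, hs⟩ := hx
    have hE : (𝒞.copies N).IsEdge ((𝒞.copies N).edge s x) := ⟨s, x, rfl⟩
    have hs' : ∃ e', (𝒞.copies N).IsEdge e' ∧ E.img e' = E.img ((𝒞.copies N).edge s x) ∧
        e' ≠ (𝒞.copies N).edge s x := by
      by_contra hcon
      apply hs
      refine ⟨hE, fun e' he' hi => ?_⟩
      by_contra hne
      exact hcon ⟨e', he', hi, hne⟩
    obtain ⟨e', ⟨s', x', rfl⟩, himg, hne⟩ := hs'
    have hi1 : (𝒞.ty (𝒞.edge s' x'.2).1,
        ((F x'.1).1 : ZMod P) * lam (𝒞.edge s' x'.2).1 + (F x'.1).2) =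
        (𝒞.ty (𝒞.edge s x.2).1,
        ((F x.1).1 : ZMod P) * lam (𝒞.edge s x.2).1 + (F x.1).2) :=
      iota.injective (congrArg Prod.fst himg)
    have hi2 : (𝒞.ty (𝒞.edge s' x'.2).2,
        ((F x'.1).1 : ZMod P) * lam (𝒞.edge s' x'.2).2 + (F x'.1).2) =
        (𝒞.ty (𝒞.edge s x.2).2,
        ((F x.1).1 : ZMod P) * lam (𝒞.edge s x.2).2 + (F x.1).2) :=
      iota.injective (congrArg Prod.snd himg)
    have hcne : x.1 ≠ x'.1 := by
      intro hc
      apply hne
      have e1 : lam (𝒞.edge s' x'.2).1 = lam (𝒞.edge s x.2).1 := by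
        have := congrArg Prod.snd hi1
        simp only [hc] at this
        exact mul_left_cancel₀ (Units.ne_zero _) (add_right_cancel this)
      have e2 : lam (𝒞.edge s' x'.2).2 = lam (𝒞.edge s x.2).2 := by
        have := congrArg Prod.snd hi2
        simp only [hc] at this
        exact mul_left_cancel₀ (Units.ne_zero _) (add_right_cancel this)
      have e3 := lam.injective e1
      have e4 := lam.injective e2
      show ((x'.1, (𝒞.edge s' x'.2).1), (x'.1, (𝒞.edge s' x'.2).2)) =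
        ((x.1, (𝒞.edge s x.2).1), (x.1, (𝒞.edge s x.2).2))
      rw [e3, e4, hc]
    refine ⟨((x.1, ⟨𝒞.edge s x.2, s, x.2, rfl⟩), (x'.1, ⟨𝒞.edge s' x'.2, s', x'.2, rfl⟩)), ?_,
      rfl, s, rfl⟩
    rw [hcoll, Finset.mem_filter]
    refine ⟨Finset.mem_univ _, hcne, ?_⟩
    have a1 := congrArg Prod.fst hi1
    have a2 := congrArg Prod.snd hi1
    have a3 := congrArg Prod.snd hi2
    show (⟨𝒞.ty (𝒞.edge s x.2).1, ((F x.1).1 : ZMod P) * lam (𝒞.edge s x.2).1 + (F x.1).2,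
        ((F x.1).1 : ZMod P) * lam (𝒞.edge s x.2).2 + (F x.1).2⟩ : ZT P) =
      ⟨𝒞.ty (𝒞.edge s' x'.2).1, ((F x'.1).1 : ZMod P) * lam (𝒞.edge s' x'.2).1 + (F x'.1).2,
        ((F x'.1).1 : ZMod P) * lam (𝒞.edge s' x'.2).2 + (F x'.1).2⟩
    exact (ZT.mk.injEq _ _ _ _ _ _).mpr ⟨a1.symm, a2.symm, a3.symm⟩
  -- counting bad chambers
  have hcount : (Finset.univ.filter fun x : Fin N × X =>
      ¬ (∀ s, E.Good ((𝒞.copies N).edge s x))).card ≤ coll.card * d := by
    refine (Finset.card_le_card (t := coll.biUnion fun p => Finset.univ.filter fun x : Fin N × X =>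
      p.1.1 = x.1 ∧ ∃ s, 𝒞.edge s x.2 = p.1.2.1) ?_).trans ?_
    · intro x hx
      obtain ⟨p, hp, hp1, hp2⟩ := hbad x (Finset.mem_filter.1 hx).2
      exact Finset.mem_biUnion.2 ⟨p, hp, Finset.mem_filter.2 ⟨Finset.mem_univ _, hp1, hp2⟩⟩
    · refine Finset.card_biUnion_le_card_mul _ _ _ fun p hp => ?_
      obtain ⟨s, y, hy⟩ := p.1.2.2
      rw [← hs s y]
      refine Finset.card_le_card_of_injOn (fun x => x.2) ?_ ?_
      · intro x hx
        obtain ⟨-, -, s', hs'⟩ := Finset.mem_filter.1 (Finset.mem_coe.1 hx)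
        rw [← hy] at hs'
        have := edge_s 𝒞 hs'
        subst this
        exact Finset.mem_coe.2 (Finset.mem_filter.2 ⟨Finset.mem_univ _, hs'⟩)
      · intro x hx x' hx' hxx
        have a := (Finset.mem_filter.1 (Finset.mem_coe.1 hx)).2.1
        have b := (Finset.mem_filter.1 (Finset.mem_coe.1 hx')).2.1
        exact Prod.ext (a.symm.trans b) hxx
  refine ⟨E, ?_⟩
  have htot : (Finset.univ.filter fun x : Fin N × X =>
        ∀ s, E.Good ((𝒞.copies N).edge s x)).card +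
      (Finset.univ.filter fun x : Fin N × X =>
      ¬ (∀ s, E.Good ((𝒞.copies N).edge s x))).card = N * Fintype.card X := by
    have := Finset.card_filter_add_card_filter_not (s := (Finset.univ : Finset (Fin N × X)))
      (fun x : Fin N × X => ∀ s, E.Good ((𝒞.copies N).edge s x))
    rw [Finset.card_univ, Fintype.card_prod, Fintype.card_fin] at this
    exact this
  set g := (Finset.univ.filter fun x : Fin N × X =>
        ∀ s, E.Good ((𝒞.copies N).edge s x)).card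
  set b := (Finset.univ.filter fun x : Fin N × X =>
      ¬ (∀ s, E.Good ((𝒞.copies N).edge s x))).card
  have hEd := card_Ed h1 𝒞 d hs
  set Ed := Fintype.card {e : V × V // 𝒞.IsEdge e}
  set K := Fintype.card X
  set Q := P * (P - 1)
  rcases Nat.eq_zero_or_pos (N * K) with h0 | h0
  · omega
  have key : b * (18 * (N * K)) ≤ 9 * (N * K) * (N * K) := by
    calc b * (18 * (N * K)) ≤ b * (d * Q) := Nat.mul_le_mul_left _ hN
      _ ≤ (coll.card * d) * (d * Q) := Nat.mul_le_mul_right _ hcount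
      _ = (coll.card * Q) * (d * d) := by ring
      _ ≤ (N ^ 2 * Ed ^ 2) * (d * d) := Nat.mul_le_mul_right _ hF
      _ = N ^ 2 * ((Ed * d) * (Ed * d)) := by ring
      _ ≤ N ^ 2 * ((3 * K) * (3 * K)) := Nat.mul_le_mul_left _ (Nat.mul_le_mul hEd hEd)
      _ = 9 * (N * K) * (N * K) := by ring
  have key2 : 2 * b ≤ N * K := by
    have h3 : (18 * b) * (N * K) ≤ (9 * (N * K)) * (N * K) := by
      calc (18 * b) * (N * K) = b * (18 * (N * K)) := by ring
        _ ≤ _ := key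
    have := Nat.le_of_mul_le_mul_right h3 h0
    omega
  omega

end Pool.Agent.Helper4.FL
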